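import Pool.Agent.Helper64.OF.St
import Pool.Agent.Helper35.PM.D_REV

set_option autoImplicit false

namespace Pool.Agent.Helper15.OF

open Equiv Equiv.Perm Pool.Agent.Helper64.OF Pool.Agent.Helper35.PM

variable {V : Type} {G : SimpleGraph V}

theorem z2_ne {a : ZMod 2} (h : a ≠ 1) : a = 0 := by revert h; revert a; decide

theorem offd {R : Rot G} {m : ℕ} {v : ZMod m → V} {y : G.Dart → ZMod 2} (hS : Side R m v y)
    (d : G.Dart) (h : d.fst ∉ Set.range v ∨ d.snd ∉ Set.range v) : y d.symm = y d := by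
  refine (hS.off d (fun j => ⟨?_, ?_⟩)).1
  · intro hd
    have h1 : d.fst = v j := congrArg Prod.fst hd
    have h2 : d.snd = v (j + 1) := congrArg Prod.snd hd
    rcases h with h | h
    · exact h ⟨j, h1.symm⟩
    · exact h ⟨j + 1, h2.symm⟩
  · intro hd
    have h1 : d.fst = v (j + 1) := congrArg Prod.fst hd
    have h2 : d.snd = v j := congrArg Prod.snd hd
    rcases h with h | h
    · exact h ⟨j + 1, h1.symm⟩
    · exact h ⟨j, h2.symm⟩

theorem prop1 [Finite V] {R : Rot G} {m : ℕ} {v : ZMod m → V} {y : G.Dart → ZMod 2}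
    (hS : Side R m v y) {a b : V} (hab : G.Adj a b) (hb : b ∉ Set.range v)
    (h : y ⟨(a, b), hab⟩ = 0) : ∀ d : G.Dart, d.fst = b → y d = 0 := by
  intro d hd
  have h1 := offd hS ⟨(a, b), hab⟩ (Or.inr hb)
  have h2 := D_REV.offv V G R m v y hS b hb d (SimpleGraph.Dart.symm ⟨(a, b), hab⟩) hd rfl
  rw [h2, h1, h]

theorem zeroP [Finite V] {R : Rot G} {k : ℕ} {f : Fin k → G.Dart} {L : Fin k → ℕ}
    {p : Fin k → ℕ → V} (hP : Paths G L p) (hf : ∀ t, p t 0 = (f t).fst) (hNS : NoSep R f)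
    (t : Fin k) (i : ℕ) (hi : i + 2 ≤ L t) (v : ZMod 4 → V) (y : G.Dart → ZMod 2)
    (hC : Cyc G 4 v) (hS : Side R 4 v y)
    (hv : ∀ s j, j ≤ L s → p s j ∈ Set.range v → s = t ∧ (j = i ∨ j = i + 1 ∨ j = i + 2))
    (h0 : i = 0 → y (f t) = 0)
    (hl : 0 < i → ∀ z : G.Dart, z.fst = p t i → z.snd = p t (i - 1) → y z = 0)
    (hr : i + 2 < L t → ∀ z : G.Dart, z.fst = p t (i + 2) → z.snd = p t (i + 3) → y z = 0) :
    ∀ s j, j ≤ L s → ¬ (s = t ∧ (j = i ∨ j = i + 1 ∨ j = i + 2)) →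
      ∀ d : G.Dart, d.fst = p s j → y d = 0 := by
  -- the vertices before `p t i`
  have hbef : ∀ m, m < i → ∀ d : G.Dart, d.fst = p t (i - 1 - m) → y d = 0 := by
    intro m
    induction m with
    | zero =>
      intro hm
      have hadj : G.Adj (p t i) (p t (i - 1)) := by
        have := hP.adj t (i - 1) (by omega)
        rw [Nat.sub_add_cancel hm] at this
        exact this.symm
      have hb : p t (i - 1) ∉ Set.range v := fun h => by
        have := (hv t (i - 1) (by omega) h).2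
        omega
      exact prop1 hS hadj hb (hl hm _ rfl rfl)
    | succ m ih =>
      intro hm
      have hadj : G.Adj (p t (i - 1 - m)) (p t (i - 1 - (m + 1))) := by
        have := hP.adj t (i - 1 - (m + 1)) (by omega)
        rw [show i - 1 - (m + 1) + 1 = i - 1 - m by omega] at this
        exact this.symm
      have hb : p t (i - 1 - (m + 1)) ∉ Set.range v := fun h => by
        have := (hv t _ (by omega) h).2
        omega
      exact prop1 hS hadj hb (ih (by omega) _ rfl)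
  have hft : y (f t) = 0 := by
    rcases Nat.eq_zero_or_pos i with h | h
    · exact h0 h
    · apply hbef (i - 1) (by omega)
      rw [show i - 1 - (i - 1) = 0 by omega]
      exact (hf t).symm
  have haft : ∀ m, i + 3 + m ≤ L t → ∀ d : G.Dart, d.fst = p t (i + 3 + m) → y d = 0 := by
    intro m
    induction m with
    | zero =>
      intro hm
      have hadj : G.Adj (p t (i + 2)) (p t (i + 3)) := hP.adj t (i + 2) (by omega)
      have hb : p t (i + 3) ∉ Set.range v := fun h => by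
        have := (hv t (i + 3) (by omega) h).2
        omega
      exact prop1 hS hadj hb (hr (by omega) _ rfl rfl)
    | succ m ih =>
      intro hm
      have hadj : G.Adj (p t (i + 3 + m)) (p t (i + 3 + (m + 1))) := hP.adj t (i + 3 + m) (by omega)
      have hb : p t (i + 3 + (m + 1)) ∉ Set.range v := fun h => by
        have := (hv t _ (by omega) h).2
        omega
      exact prop1 hS hadj hb (ih (by omega) _ rfl)
  have hns := hNS v y hC hS.face (fun d hd => (hS.off d hd).1) (fun d j hd => by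
    have h1 := hS.on0 d j hd
    have h2 := hS.on1 d.symm j (by
      show d.toProd.swap = _
      rw [hd]; rfl)
    rw [h1, h2]; rfl)
  have hoth : ∀ s, s ≠ t → ∀ j, j ≤ L s → ∀ d : G.Dart, d.fst = p s j → y d = 0 := by
    intro s hst j
    induction j with
    | zero =>
      intro _ d hd
      have hb : p s 0 ∉ Set.range v := fun h => hst (hv s 0 (Nat.zero_le _) h).1
      have h2 := D_REV.offv V G R 4 v y hS (p s 0) hb d (f s) hd (hf s).symm
      rw [h2, hns s t, hft]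
    | succ j ih =>
      intro hj
      have hb : p s (j + 1) ∉ Set.range v := fun h => hst (hv s _ hj h).1
      exact prop1 hS (hP.adj s j (by omega)) hb (ih (by omega) _ rfl)
  intro s j hj hn d hd
  by_cases hst : s = t
  · subst hst
    have hn' : ¬ (j = i ∨ j = i + 1 ∨ j = i + 2) := fun h => hn ⟨rfl, h⟩
    by_cases hji : j < i
    · apply hbef (i - 1 - j) (by omega)
      rw [show i - 1 - (i - 1 - j) = j by omega]
      exact hd
    · apply haft (j - (i + 3)) (by omega)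
      rw [show i + 3 + (j - (i + 3)) = j by omega]
      exact hd
  · exact hoth s hst j hj d hd

theorem mem_rng (u0 u1 u2 w x : V) :
    x ∈ Set.range (![u0, u1, u2, w] : ZMod 4 → V) ↔ x = u0 ∨ x = u1 ∨ x = u2 ∨ x = w := by
  constructor
  · rintro ⟨j, rfl⟩
    have key : ∀ j : ZMod 4, j = 0 ∨ j = 1 ∨ j = 2 ∨ j = 3 := by decide
    rcases key j with h | h | h | h <;> subst h
    · exact Or.inl rfl
    · exact Or.inr (Or.inl rfl)
    · exact Or.inr (Or.inr (Or.inl rfl))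
    · exact Or.inr (Or.inr (Or.inr rfl))
  · rintro (h | h | h | h)
    · exact ⟨0, h.symm⟩
    · exact ⟨1, h.symm⟩
    · exact ⟨2, h.symm⟩
    · exact ⟨3, h.symm⟩

theorem mkDisc [Finite V] {R : Rot G} (hTF : TF G) (P : Set V) (c : V → ZMod 2)
    (q y : G.Dart → ZMod 2) (u0 u1 u2 w : V) (hu0 : u0 ∈ P) (hu1 : u1 ∈ P) (hu2 : u2 ∈ P)
    (hstar : ∀ d : G.Dart, d.fst ∈ P → d.snd ∉ P → c d.snd = q d + 1)
    (hC : Cyc G 4 ![u0, u1, u2, w]) (hS : Side R 4 ![u0, u1, u2, w] y)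
    (hw : w ∉ P) (hcw : c w = 1)
    (h0 : ∀ d : G.Dart, d.fst = u0 → d.snd ∈ {v : V | v ∉ P ∧ c v = 1 ∧ G.Adj u0 v ∧ G.Adj u2 v} →
      y d = 1)
    (hq0 : ∀ d : G.Dart, d.fst = u0 → y d = 1 → q d = 0)
    (hq1 : ∀ d : G.Dart, d.fst = u1 → y d = q d)
    (hq2 : ∀ d : G.Dart, d.fst = u2 → y d = 1 → q d = 0)
    (hdisj : ∀ v ∈ P, v ≠ u0 → v ≠ u1 → v ≠ u2 → ∀ d : G.Dart, d.fst = v → y d = 0) :
    Disc G P c u0 u1 u2 w
      {v | v ≠ u0 ∧ v ≠ u1 ∧ v ≠ u2 ∧ v ≠ w ∧ ∃ d : G.Dart, d.fst = v ∧ y d = 1} := by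
  have a01 : G.Adj u0 u1 := hC.adj 0
  have a2w : G.Adj u2 w := hC.adj 2
  have aw0 : G.Adj w u0 := hC.adj 3
  have hnr : ∀ x, x ≠ u0 → x ≠ u1 → x ≠ u2 → x ≠ w →
      x ∉ Set.range (![u0, u1, u2, w] : ZMod 4 → V) := by
    intro x h1 h2 h3 h4 h
    rw [mem_rng] at h
    tauto
  have hdj : ∀ v, (v ≠ u0 ∧ v ≠ u1 ∧ v ≠ u2 ∧ v ≠ w ∧ ∃ d : G.Dart, d.fst = v ∧ y d = 1) →
      v ∉ P := by
    rintro v ⟨h1, h2, h3, h4, d, hd, hy⟩ hvP
    have := hdisj v hvP h1 h2 h3 d hd
    rw [hy] at this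
    exact absurd this (by decide)
  -- all darts at a vertex of the disc
  have hall : ∀ v, (v ≠ u0 ∧ v ≠ u1 ∧ v ≠ u2 ∧ v ≠ w ∧ ∃ d : G.Dart, d.fst = v ∧ y d = 1) →
      ∀ d : G.Dart, d.fst = v → y d = 1 ∧ y d.symm = 1 := by
    rintro v ⟨h1, h2, h3, h4, e, he, hy⟩ d hd
    have hb := hnr v h1 h2 h3 h4
    have h5 := D_REV.offv V G R 4 _ y hS v hb d e hd he
    have h6 := offd hS d (Or.inl (by rw [hd]; exact hb))
    rw [h6, h5, hy]
    exact ⟨rfl, rfl⟩
  have hz : ∀ x : ZMod 2, x + 1 = 1 → x = 0 := by decide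
  refine ⟨hw, hcw, aw0.symm, a2w, hdj, fun h => h.2.2.2.1 rfl, ?_, ?_, ?_, ?_, ?_⟩
  · intro u v hu huv
    by_cases h1 : v = u0
    · exact Or.inr (Or.inl h1)
    by_cases h2 : v = u1
    · exact Or.inr (Or.inr (Or.inl h2))
    by_cases h3 : v = u2
    · exact Or.inr (Or.inr (Or.inr (Or.inl h3)))
    by_cases h4 : v = w
    · exact Or.inr (Or.inr (Or.inr (Or.inr h4)))
    · left
      have := (hall u hu ⟨(u, v), huv⟩ rfl).2
      exact ⟨h1, h2, h3, h4, _, rfl, this⟩
  · intro v hv hcv av0 av2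
    by_cases h4 : v = w
    · exact Or.inl h4
    · right
      have h1 : v ≠ u0 := fun h => hv (h ▸ hu0)
      have h2 : v ≠ u1 := fun h => hv (h ▸ hu1)
      have h3 : v ≠ u2 := fun h => hv (h ▸ hu2)
      have hb := hnr v h1 h2 h3 h4
      have h5 := h0 ⟨(u0, v), av0⟩ rfl ⟨hv, hcv, av0, av2⟩
      have h6 := offd hS ⟨(u0, v), av0⟩ (Or.inr hb)
      exact ⟨h1, h2, h3, h4, _, rfl, h6.trans h5⟩
  · intro v hv av1
    have h4 : v ≠ w := by
      intro h
      subst h
      exact hTF _ _ _ a01 av1 aw0.symm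
    have h1 : v ≠ u0 := fun h => hv (h ▸ hu0)
    have h2 : v ≠ u1 := fun h => hv (h ▸ hu1)
    have h3 : v ≠ u2 := fun h => hv (h ▸ hu2)
    have hb := hnr v h1 h2 h3 h4
    have h6 := offd hS ⟨(u1, v), av1⟩ (Or.inr hb)
    have h7 := hq1 ⟨(u1, v), av1⟩ rfl
    have h8 : c v = q ⟨(u1, v), av1⟩ + 1 := hstar ⟨(u1, v), av1⟩ hu1 hv
    constructor
    · intro hΩ
      have h9 := (hall v hΩ (SimpleGraph.Dart.symm ⟨(u1, v), av1⟩) rfl).1
      rw [h8, ← h7, ← h6, h9]
      decide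
    · intro hcv
      have h10 : q ⟨(u1, v), av1⟩ = 1 := by
        have hz1 : ∀ x : ZMod 2, x + 1 = 0 → x = 1 := by decide
        exact hz1 _ (h8.symm.trans hcv)
      exact ⟨h1, h2, h3, h4, _, rfl, h6.trans (h7.trans h10)⟩
  · intro v hv av0
    have h5 := (hall v hv (SimpleGraph.Dart.symm ⟨(u0, v), av0⟩) rfl).2
    have h8 : c v = q ⟨(u0, v), av0⟩ + 1 := hstar ⟨(u0, v), av0⟩ hu0 (hdj v hv)
    have h6 : q ⟨(u0, v), av0⟩ = 0 := hq0 _ rfl h5
    rw [h8, h6]; rfl
  · intro v hv av2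
    have h5 := (hall v hv (SimpleGraph.Dart.symm ⟨(u2, v), av2⟩) rfl).2
    have h8 : c v = q ⟨(u2, v), av2⟩ + 1 := hstar ⟨(u2, v), av2⟩ hu2 (hdj v hv)
    have h6 : q ⟨(u2, v), av2⟩ = 0 := hq2 _ rfl h5
    rw [h8, h6]; rfl

theorem disc_swap {P : Set V} {c : V → ZMod 2} {u0 u1 u2 w : V} {Ω : Set V}
    (h : Disc G P c u0 u1 u2 w Ω) : Disc G P c u2 u1 u0 w Ω :=
  { wP := h.wP
    cw := h.cw
    adj0 := h.adj2
    adj2 := h.adj0
    disj := h.disj
    wΩ := h.wΩ
    nb := fun u v hu huv => by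
      have := h.nb u v hu huv
      tauto
    out := fun v hv hc h2 h0 => h.out v hv hc h0 h2
    mid := h.mid
    end0 := h.end2
    end2 := h.end0 }

open Classical in
theorem hDSC (hTR : StTR) (hRul : StRul) : StDsc := by
  intro V _ G R k f g L p q c hTF hP hf hg hNS hq hsym hc hval t i v0 hi hv0 hcv0 a0 a2
  set P : Set V := PV L p with hPdef
  have hmem : ∀ s j, j ≤ L s → p s j ∈ P := fun s j hj => ⟨s, j, hj, rfl⟩
  have hinj : ∀ j j', j ≤ L t → j' ≤ L t → j ≠ j' → p t j ≠ p t j' :=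
    fun j j' h1 h2 h3 h4 => h3 (hP.inj t t j j' h1 h2 h4).2
  have hzz : ∀ x : ZMod 2, x + 1 + 1 = x := by decide
  have hz1 : ∀ x : ZMod 2, x + 1 = 1 → x = 0 := by decide
  have hz0 : ∀ x : ZMod 2, x ≠ 1 → x = 0 := by decide
  -- darts leaving the paths
  have hX0 : ∀ d : G.Dart, d.fst ∉ P ∨ d.snd ∉ P → X L p d = 0 := by
    intro d hd
    unfold X
    rw [if_neg]
    rintro ⟨s, j, hj, h | h⟩
    · rcases hd with hd | hd
      · exact hd (h.1 ▸ hmem s j hj.le)
      · exact hd (h.2 ▸ hmem s (j + 1) hj)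
    · rcases hd with hd | hd
      · exact hd (h.1 ▸ hmem s (j + 1) hj)
      · exact hd (h.2 ▸ hmem s j hj.le)
  have hstar : ∀ d : G.Dart, d.fst ∈ P → d.snd ∉ P → c d.snd = q d + 1 := by
    intro d _ h2
    have h3 := hc d.symm h2
    have h4 := hsym d
    rw [hX0 d (Or.inr h2), add_zero] at h4
    rw [← h4, ← h3]; rfl
  have hX1 : ∀ j (hj : j < L t), X L p ⟨(p t j, p t (j + 1)), hP.adj t j hj⟩ = 1 := by
    intro j hj
    unfold X
    rw [if_pos]
    exact ⟨t, j, hj, Or.inl ⟨rfl, rfl⟩⟩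
  have hes : ∀ j (hj : j < L t), q ⟨(p t (j + 1), p t j), (hP.adj t j hj).symm⟩ =
      q ⟨(p t j, p t (j + 1)), hP.adj t j hj⟩ := by
    intro j hj
    have h4 := hsym ⟨(p t j, p t (j + 1)), hP.adj t j hj⟩
    rw [hX1 j hj, hzz] at h4
    exact h4
  have hv1 : q ⟨(p t (i + 1), p t (i + 2)), hP.adj t (i + 1) (by omega)⟩ =
      q ⟨(p t i, p t (i + 1)), hP.adj t i (by omega)⟩ + 1 := by
    rw [← hes i (by omega)]
    exact hval t i hi _ _ rfl rfl rfl rfl
  -- rules
  obtain ⟨z0, hz0f, hz00, hz0s, hz0r⟩ := (hRul V G R k f g L p q hP hf hg hq t i (by omega)).1 (by omega)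
  obtain ⟨z1, hz1f, -, hz1s, hz1r⟩ :=
    (hRul V G R k f g L p q hP hf hg hq t (i + 1) (by omega)).1 (by omega)
  obtain ⟨z2, hz2f, -, hz2s, hz2r⟩ :=
    (hRul V G R k f g L p q hP hf hg hq t (i + 2) (by omega)).2 (by omega)
  have hz1s' : z1.snd = p t i := hz1s (by omega)
  have hz1r' : ∀ d : G.Dart, d.fst = p t (i + 1) →
      q (R.r d) = q d + (if d.snd = p t (i + 2) then 1 else 0) + (if d.snd = p t i then 1 else 0) := by
    intro d hd
    have h1 := hz1r d hd
    have h2 : d = z1 ↔ d.snd = p t i := by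
      constructor
      · rintro rfl; exact hz1s'
      · intro h
        apply SimpleGraph.Dart.ext
        exact Prod.ext (hd.trans hz1f.symm) (h.trans hz1s'.symm)
    by_cases h3 : d.snd = p t i
    · rw [h1, if_pos h3, if_pos (h2.mpr h3)]
    · rw [h1, if_neg h3, if_neg (fun h => h3 (h2.mp h))]
  have hz2r' : ∀ d : G.Dart, d.fst = p t (i + 2) →
      q (R.r d) = q d + (if d.snd = p t (i + 1) then 1 else 0) + (if d = z2 then 1 else 0) := hz2r
  have hz2s' : i + 2 < L t → z2.snd = p t (i + 3) := hz2s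
  have hne02 : p t i ≠ p t (i + 2) := hinj _ _ (by omega) (by omega) (by omega)
  -- the vertices of the paths on the 4-cycle
  have hcyc : ∀ (w : V), w ∉ P → ∀ s j, j ≤ L s →
      (p s j = p t i ∨ p s j = p t (i + 1) ∨ p s j = p t (i + 2) ∨ p s j = w) →
      s = t ∧ (j = i ∨ j = i + 1 ∨ j = i + 2) := by
    intro w hw s j hj h
    rcases h with h | h | h | h
    · have := hP.inj s t j i hj (by omega) h
      exact ⟨this.1, Or.inl this.2⟩
    · have := hP.inj s t j (i + 1) hj (by omega) h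
      exact ⟨this.1, Or.inr (Or.inl this.2)⟩
    · have := hP.inj s t j (i + 2) hj (by omega) h
      exact ⟨this.1, Or.inr (Or.inr this.2)⟩
    · exact absurd (h ▸ hmem s j hj) hw
  by_cases hcase : q ⟨(p t i, p t (i + 1)), hP.adj t i (by omega)⟩ = 1
  · obtain ⟨w, hwK, y, hC, hS, hy0, hyz0, hyz0', hyz2, hyz2', hq0, hq1, hq2⟩ :=
      hTR V G R q {v : V | v ∉ P ∧ c v = 1 ∧ G.Adj (p t i) v ∧ G.Adj (p t (i + 2)) v}
        (p t i) (p t (i + 1)) (p t (i + 2)) (hP.adj t i (by omega)) (hP.adj t (i + 1) (by omega))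
        z0 z2 hne02 hz0f hz2f hz0r
        (fun d hd => by rw [hz1r' d hd]; ring) hz2r' hcase (by rw [hes i (by omega)]; exact hcase)
        (by rw [hv1, hcase]; decide) (by rw [hes (i + 1) (by omega), hv1, hcase]; decide)
        (fun h => h.1 (hmem t (i + 1) (by omega))) (fun v hv => ⟨hv.2.2.1, hv.2.2.2⟩)
        (fun d hd hdK => hz1 _ ((hstar d (hd ▸ hmem t i (by omega)) hdK.1).symm.trans hdK.2.1))
        (fun d hd hdK => hz1 _ ((hstar d (hd ▸ hmem t (i + 2) (by omega)) hdK.1).symm.trans hdK.2.1))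
        ⟨v0, hv0, hcv0, a0, a2⟩
    refine ⟨w, _, mkDisc hTF P c q y (p t i) (p t (i + 1)) (p t (i + 2)) w (hmem t i (by omega))
      (hmem t _ (by omega)) (hmem t _ (by omega)) hstar hC hS hwK.1 hwK.2.1 hy0 hq0 hq1 hq2 ?_⟩
    have hzP := zeroP hP hf hNS t i hi _ y hC hS (fun s j hj h => hcyc w hwK.1 s j hj ((mem_rng _ _ _ _ _).1 h))
      (fun h => by rw [← hz00 h]; exact hyz0)
      (fun h z hzf hzs => by
        have e : z = z0 := by
          apply SimpleGraph.Dart.ext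
          exact Prod.ext (hzf.trans hz0f.symm) (hzs.trans (hz0s h).symm)
        rw [e]
        apply hyz0'
        intro hK
        exact hK.1 (by rw [hz0s h]; exact hmem t (i - 1) (by omega)))
      (fun h z hzf hzs => by
        have e : z = z2 := by
          apply SimpleGraph.Dart.ext
          exact Prod.ext (hzf.trans hz2f.symm) (hzs.trans (hz2s' h).symm)
        rw [e]
        apply hyz2'
        rw [hz2s' h]
        exact hinj _ _ (by omega) (by omega) (by omega))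
    rintro v ⟨s, j, hj, rfl⟩ h1 h2 h3 d hd
    apply hzP s j hj ?_ d hd
    rintro ⟨rfl, h | h | h⟩
    · exact h1 (by rw [h])
    · exact h2 (by rw [h])
    · exact h3 (by rw [h])
  · have hcase' := hz0 _ hcase
    have hv1' : q ⟨(p t (i + 1), p t (i + 2)), hP.adj t (i + 1) (by omega)⟩ = 1 := by
      rw [hv1, hcase']; rfl
    obtain ⟨w, hwK, y, hC, hS, hy0, hyz0, hyz0', hyz2, hyz2', hq0, hq1, hq2⟩ :=
      hTR V G R q {v : V | v ∉ P ∧ c v = 1 ∧ G.Adj (p t (i + 2)) v ∧ G.Adj (p t i) v}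
        (p t (i + 2)) (p t (i + 1)) (p t i) (hP.adj t (i + 1) (by omega)).symm
        (hP.adj t i (by omega)).symm
        z2 z0 hne02.symm hz2f hz0f hz2r' hz1r' hz0r (by rw [hes (i + 1) (by omega)]; exact hv1') hv1'
        (by rw [hes i (by omega)]; exact hcase') hcase'
        (fun h => h.1 (hmem t (i + 1) (by omega))) (fun v hv => ⟨hv.2.2.1, hv.2.2.2⟩)
        (fun d hd hdK => hz1 _ ((hstar d (hd ▸ hmem t (i + 2) (by omega)) hdK.1).symm.trans hdK.2.1))
        (fun d hd hdK => hz1 _ ((hstar d (hd ▸ hmem t i (by omega)) hdK.1).symm.trans hdK.2.1))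
        ⟨v0, hv0, hcv0, a2, a0⟩
    refine ⟨w, _, disc_swap (mkDisc hTF P c q y (p t (i + 2)) (p t (i + 1)) (p t i) w
      (hmem t _ (by omega)) (hmem t _ (by omega)) (hmem t i (by omega)) hstar hC hS hwK.1 hwK.2.1 hy0
      hq0 hq1 hq2 ?_)⟩
    have hzP := zeroP hP hf hNS t i hi _ y hC hS (fun s j hj h => by
        rcases (mem_rng _ _ _ _ _).1 h with h' | h' | h' | h'
        · exact hcyc w hwK.1 s j hj (Or.inr (Or.inr (Or.inl h')))
        · exact hcyc w hwK.1 s j hj (Or.inr (Or.inl h'))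
        · exact hcyc w hwK.1 s j hj (Or.inl h')
        · exact hcyc w hwK.1 s j hj (Or.inr (Or.inr (Or.inr h'))))
      (fun h => by rw [← hz00 h]; exact hyz2)
      (fun h z hzf hzs => by
        have e : z = z0 := by
          apply SimpleGraph.Dart.ext
          exact Prod.ext (hzf.trans hz0f.symm) (hzs.trans (hz0s h).symm)
        rw [e]
        apply hyz2'
        rw [hz0s h]
        exact hinj _ _ (by omega) (by omega) (by omega))
      (fun h z hzf hzs => by
        have e : z = z2 := by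
          apply SimpleGraph.Dart.ext
          exact Prod.ext (hzf.trans hz2f.symm) (hzs.trans (hz2s' h).symm)
        rw [e]
        apply hyz0'
        intro hK
        exact hK.1 (by rw [hz2s' h]; exact hmem t (i + 3) (by omega)))
    rintro v ⟨s, j, hj, rfl⟩ h1 h2 h3 d hd
    apply hzP s j hj ?_ d hd
    rintro ⟨rfl, h | h | h⟩
    · exact h3 (by rw [h])
    · exact h2 (by rw [h])
    · exact h1 (by rw [h])

end Pool.Agent.Helper15.OF
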